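import Mathlib

open Finset

namespace H11.Aont

variable {F ι : Type} [Field F] [Fintype F] [DecidableEq F] [Fintype ι] [DecidableEq ι]

theorem prod_erase : ∏ a ∈ (univ : Finset F).erase 0, a = -1 := by
  have := congrArg Units.val (FiniteField.prod_univ_units_id_eq_neg_one (K := F))
  rw [Units.coe_prod, Units.val_neg, Units.val_one] at this
  rw [← this]
  exact (prod_bij (fun u _ => u.1) (by simp) (fun _ _ _ _ => Units.ext)
    (fun a h => ⟨.mk0 a (by simpa using h), mem_univ _, rfl⟩) (by simp)).symm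

theorem image_eq (A : Finset ι) (f : ι → F) (hf : Set.InjOn f A) (h0 : ∀ a ∈ A, f a ≠ 0)
    (hc : #A + 2 = Fintype.card F) (hp : ∏ a ∈ A, f a = 1) :
    A.image f = (univ.erase 0).erase (-1) := by
  have hs : A.image f ⊆ univ.erase 0 := image_subset_iff.2 (by simpa)
  obtain ⟨ρ, h1, h2⟩ := exists_eq_insert_iff.2 ⟨hs, by
    rw [card_image_of_injOn hf, card_erase_of_mem (mem_univ _), card_univ]; omega⟩
  have := prod_erase (F := F)
  rw [← h2, prod_insert h1, prod_image hf, hp, mul_one] at this
  rw [← h2, ← this, erase_insert h1]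

theorem gauss (S : Finset F) (h0 : 0 ∉ S) (h : ∀ a ≠ 0, a ∉ S ↔ -a ∈ S) (t : F) (ht : t ≠ 0) :
    t ^ #S = (-1) ^ #{a ∈ S | t * a ∉ S} := by
  have h1 : ∀ a ∈ S, a ≠ 0 := fun a ha e => h0 (e ▸ ha)
  have h2 : ∀ a ∈ S, -a ∉ S := fun a ha c => (h a (h1 a ha)).2 c ha
  let φ : F → F := fun a => if t * a ∉ S then -(t * a) else t * a
  have hm : ∀ a ∈ S, φ a ∈ S := fun a ha => by
    simp only [φ]; split_ifs with c
    exacts [c, (h _ (mul_ne_zero ht (h1 a ha))).1 c]
  have hi : Set.InjOn φ S := fun a ha b hb e => by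
    have : a = b ∨ a = -b := by
      simp only [φ] at e; split_ifs at e
      · exact .inl (mul_left_cancel₀ ht e)
      · exact .inr (mul_left_cancel₀ ht (by rw [e, mul_neg]))
      · exact .inr (mul_left_cancel₀ ht (by rw [mul_neg, ← e, neg_neg]))
      · exact .inl (mul_left_cancel₀ ht (neg_injective e))
    exact this.resolve_right fun c => h2 b hb (c ▸ ha)
  have h3 : ∏ a ∈ S, φ a = ∏ a ∈ S, a := by
    conv_rhs => rw [← eq_of_subset_of_card_le (image_subset_iff.2 hm) (card_image_of_injOn hi).ge]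
    rw [prod_image hi]
  have h4 : ∀ a, φ a = (if t * a ∉ S then -1 else 1) * (t * a) := fun a => by
    simp only [φ]; split_ifs <;> simp
  simp only [h4, prod_mul_distrib, prod_ite, prod_const, one_pow, mul_one] at h3
  rw [prod_mul_distrib, prod_const, ← mul_assoc, mul_eq_right₀ (prod_ne_zero_iff.2 h1)] at h3
  rw [eq_inv_of_mul_eq_one_right h3, ← inv_pow, inv_neg_one]

theorem core (hc : Fintype.card ι = Fintype.card F) (h5 : 5 < Fintype.card F) (x : ι → ι → F)
    (h0 : ∀ k i, i ≠ k → x k i ≠ 0)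
    (h : ∀ i j, i ≠ j → ∀ t ≠ 0, #{k | i ≠ k ∧ j ≠ k ∧ x k i = t * x k j} =
      if t = -1 then 0 else 1) (h2 : (1 : F) ≠ -1) : False := by
  set p := Fintype.card F
  let n : ι → F → ℤ := fun k a => ∑ i, if i ≠ k ∧ x k i = a then 1 else 0
  have n0 : ∀ k a, 0 ≤ n k a := fun k a => sum_nonneg fun i _ => by positivity
  have nz : ∀ k, n k 0 = 0 := fun k => sum_eq_zero fun i _ => if_neg fun c => h0 k i c.1 c.2
  have n1 : ∀ k, ∑ a, n k a = p - 1 := fun k => by
    rw [sum_comm, sum_congr rfl (g := fun i => 1 - if i = k then 1 else 0) fun i _ => by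
      by_cases i = k <;> simp [*]]
    simp [hc]
  have n2 : ∀ t ≠ 0, ∑ k, ∑ a, n k (t * a) * n k a =
      p * (p - 1) * ((if t = -1 then 0 else 1) + if t = 1 then 1 else 0) := fun t ht => by
    have e1 : ∀ k, ∑ a, n k (t * a) * n k a =
        ∑ i, ∑ j, if i ≠ k ∧ j ≠ k ∧ x k i = t * x k j then 1 else 0 := fun k => by
      simp only [n, sum_mul_sum]
      rw [sum_comm]
      refine sum_congr rfl fun i _ => ?_
      rw [sum_comm]
      refine sum_congr rfl fun j _ => ?_
      rw [sum_eq_single (x k j)] <;> simp +contextual [ite_and, eq_comm]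
      split_ifs <;> simp_all
    have e2 : ∀ i j, (∑ k, if i ≠ k ∧ j ≠ k ∧ x k i = t * x k j then 1 else 0 : ℤ) =
        (if t = -1 then 0 else 1) + if j = i then
          (if t = 1 then p - 1 else 0 : ℤ) - (if t = -1 then 0 else 1) else 0 := fun i j => by
      by_cases c : j = i
      · subst c
        rw [sum_congr rfl (g := fun k => if t = 1 then 1 - if k = j then 1 else 0 else 0)
          fun k _ => by
            by_cases c : j = k
            · simp [c]
            · simp [c, Ne.symm c, eq_comm (a := x k j), mul_eq_right₀ (h0 k j c)]]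
        split_ifs <;> simp_all
      · simp [sum_boole, h i j (Ne.symm c) t ht, c]
    simp only [e1]
    rw [sum_comm, sum_congr rfl fun i _ => sum_comm]
    simp only [e2, sum_add_distrib, sum_ite_eq', mem_univ, if_true, sum_const, card_univ, hc,
      nsmul_eq_mul]
    split_ifs <;> ring
  have a1 := n2 1 one_ne_zero
  have a2 := n2 (-1) (by simp)
  simp only [one_mul, neg_mul, if_neg h2, if_neg h2.symm, if_true] at a1 a2
  have a3 : ∀ k a, n k (-a) * n k a = 0 := fun k a =>
    (sum_eq_zero_iff_of_nonneg fun a _ => mul_nonneg (n0 _ _) (n0 _ _)).1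
      ((sum_eq_zero_iff_of_nonneg fun k _ => sum_nonneg fun a _ =>
        mul_nonneg (n0 _ _) (n0 _ _)).1 (a2.trans (by simp)) k (mem_univ _)) a (mem_univ _)
  have a4 : ∑ k, ∑ a, ((n k a + n k (-a) - 2) ^ 2 - if a = 0 then 4 else 0) = 0 := by
    have e : ∀ k, ∑ a, ((n k a + n k (-a) - 2) ^ 2 - if a = 0 then 4 else 0) =
        2 * ∑ a, n k a * n k a - 8 * (p - 1) + 4 * p - 4 := fun k => by
      have b1 := Equiv.sum_comp (Equiv.neg F) fun a => n k a * n k a
      have b2 := Equiv.sum_comp (Equiv.neg F) (n k)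
      simp only [Equiv.neg_apply] at b1 b2
      rw [sum_congr rfl (g := fun a => n k a * n k a + n k (-a) * n k (-a) - 4 * n k a
        - 4 * n k (-a) + 4 - if a = 0 then 4 else 0) fun a _ => by linear_combination 2 * a3 k a]
      simp only [sum_add_distrib, sum_sub_distrib, ← mul_sum, b1, b2, n1, sum_ite_eq', mem_univ,
        if_true, sum_const, card_univ, nsmul_eq_mul]
      ring
    simp only [e, sum_add_distrib, sum_sub_distrib, ← mul_sum, a1, sum_const, card_univ, hc,
      nsmul_eq_mul]
    ring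
  have pos : ∀ k a, 0 ≤ (n k a + n k (-a) - 2) ^ 2 - if a = 0 then 4 else 0 := fun k a => by
    split_ifs with c
    · simp [c, nz]
    · simpa using sq_nonneg _
  have a5 : ∀ k, ∀ a ≠ 0, n k a + n k (-a) = 2 := fun k a ha => by
    have := (sum_eq_zero_iff_of_nonneg fun a _ => pos k a).1 ((sum_eq_zero_iff_of_nonneg
      fun k _ => sum_nonneg fun a _ => pos k a).1 a4 k (mem_univ _)) a (mem_univ _)
    simpa [ha, sub_eq_zero] using this
  let S : ι → Finset F := fun k => {a | n k a = 2}
  have a6 : ∀ k a, n k a = if a ∈ S k then 2 else 0 := fun k a => by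
    by_cases c : a = 0
    · simp [c, nz, S]
    have := a5 k a c
    rcases mul_eq_zero.1 (a3 k a) with e | e <;> simp [S] <;> omega
  have a7 : ∀ k, 2 * (#(S k) : ℤ) = p - 1 := fun k => by
    rw [← n1 k]; simp [a6, sum_ite, mul_comm]
  obtain ⟨m, hm⟩ : ∃ m : ℕ, ∀ k, #(S k) = m := ⟨(p - 1) / 2, fun k => by have := a7 k; omega⟩
  have hp : 2 * (m : ℤ) = p - 1 := by
    obtain ⟨k⟩ : Nonempty ι := Fintype.card_pos_iff.1 (by omega)
    rw [← hm k, a7]
  have a8 : ∀ t ∈ ((univ.erase 0).erase 1).erase (-1 : F), t ^ m = (-1) ^ (p * (p - 1) / 4) := by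
    intro t ht
    simp only [mem_erase, mem_univ, and_true] at ht
    have b1 := n2 t ht.2.2
    have b2 : ∀ k, ∑ a, n k (t * a) * n k a = 4 * m - 4 * #{a ∈ S k | t * a ∉ S k} := fun k => by
      rw [← hm k, ← card_filter_add_card_filter_not (s := S k) (t * · ∈ S k)]
      simp only [a6, mul_ite, ite_mul, mul_zero, zero_mul, ← sum_filter, sum_const]
      simp [filter_filter, mul_comm]
      ring
    have b3 := prod_congr rfl fun k (_ : k ∈ univ) => gauss (S k) (by simp [S, nz])
      (fun a ha => by have := a5 k a ha; have := a6 k a; simp [S] at *; omega) t ht.2.2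
    simp only [hm, prod_const, card_univ, hc, prod_pow_eq_pow_sum] at b3
    rw [← FiniteField.pow_card (t ^ m), b3]
    congr 1
    simp only [b2, if_neg ht.1, if_neg ht.2.1, sum_sub_distrib, ← mul_sum, sum_const, card_univ,
      hc, nsmul_eq_mul, ← Nat.cast_sum] at b1
    have : 4 * ∑ k, #{a ∈ S k | t * a ∉ S k} = p * (p - 1) := by
      zify [show 1 ≤ p by omega] at b1 ⊢
      linear_combination p * 2 * hp - b1
    omega
  have a9 := (card_le_card (t := (Polynomial.nthRoots m ((-1 : F) ^ (p * (p - 1) / 4))).toFinset)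
    fun t ht => by simpa [Polynomial.mem_nthRoots (show 0 < m by omega)] using a8 t ht).trans
    ((Multiset.toFinset_card_le _).trans (Polynomial.card_nthRoots _ _))
  rw [card_erase_of_mem (by simp [h2.symm]), card_erase_of_mem (by simp),
    card_erase_of_mem (by simp), card_univ] at a9
  omega

end H11.Aont

open H11.Aont

theorem Pool.Agent.Results.MP_e1f2d0_co.NoSym.result (p : ℕ) [NeZero p] (hp : p.Prime)
    (h5 : 5 < p) : ¬ ∃ M : Matrix (Fin p) (Fin p) (ZMod p), M.transpose = M ∧
      (M 0 0 = 0 ∧ (∀ j ≠ 0, M 0 j = 1 ∧ M j 0 = 1) ∧ ∀ i : Fin p, i.1 + 1 < p → M i i = 0) ∧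
      IsUnit M ∧ ∀ r c : Fin 2 → Fin p, StrictMono r → StrictMono c →
        IsUnit (M.submatrix r c) := by
  rintro ⟨M, hs, ⟨-, -, hd⟩, -, hu⟩
  haveI := Fact.mk hp
  have sy : ∀ i j, M i j = M j i := fun i j => (congrFun₂ hs i j).symm
  have mi : ∀ i j k l, i ≠ j → k ≠ l → M i k * M j l ≠ M i l * M j k := by
    have : ∀ i j k l, i < j → k < l → M i k * M j l ≠ M i l * M j k := fun i j k l h1 h2 => by
      have := ((Matrix.isUnit_iff_isUnit_det _).1 (hu ![i, j] ![k, l]
        (by simpa [Fin.strictMono_iff_lt_succ]) (by simpa [Fin.strictMono_iff_lt_succ]))).ne_zero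
      simpa [Matrix.det_fin_two, sub_eq_zero] using this
    intro i j k l h1 h2 e
    rcases h1.lt_or_gt with h1 | h1 <;> rcases h2.lt_or_gt with h2 | h2 <;>
      refine this _ _ _ _ h1 h2 ?_ <;> first | linear_combination e | linear_combination -e
  have nz : ∀ i k, M i i = 0 → k ≠ i → M i k ≠ 0 := fun i k h c e =>
    mi i k i k c.symm c.symm (by simp [h, e])
  have c2 : (1 : ZMod p) ≠ -1 := fun e => by
    have : ((2 : ℕ) : ZMod p) = 0 := by push_cast; linear_combination e
    have := Nat.le_of_dvd two_pos ((ZMod.natCast_eq_zero_iff 2 p).1 this)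
    omega
  let R : Fin p → ZMod p := fun i => ∏ k ∈ univ.erase i, M i k
  have key : ∀ i j (a b : ZMod p), i ≠ j → M i i = 0 → M j j = 0 → a ≠ 0 → b ≠ 0 →
      R i * b = R j * a → Set.InjOn (fun k => a * M i k / (b * M j k)) ((univ.erase i).erase j :) ∧
      ((univ.erase i).erase j).image (fun k => a * M i k / (b * M j k)) =
        (univ.erase 0).erase (-1) := fun i j a b c hi hj ha hb e => by
    have h1 : Set.InjOn (fun k => a * M i k / (b * M j k)) ((univ.erase i).erase j :) := by
      intro k hk l hl e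
      simp only [coe_erase, coe_univ, Set.mem_diff, Set.mem_singleton_iff] at hk hl
      have := nz j k hj hk.2
      have := nz j l hj hl.2
      by_contra c'
      field_simp at e
      exact mi i j k l c c' (by linear_combination e)
    have hc : #((univ.erase i).erase j) + 2 = p := by
      rw [card_erase_of_mem (by simp [c.symm]), card_erase_of_mem (by simp)]; simp; omega
    refine ⟨h1, image_eq _ _ h1 (fun k hk => ?_) (by simpa using hc) ?_⟩
    · simp only [mem_erase] at hk
      simp [ha, hb, nz i k hi hk.2.1, nz j k hj hk.1]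
    · have e1 := mul_prod_erase (univ.erase i) (M i) (a := j) (by simp [c.symm])
      have e2 := mul_prod_erase (univ.erase j) (M j) (a := i) (by simp [c])
      rw [erase_right_comm] at e2
      have e3 := ZMod.pow_card_sub_one_eq_one ha
      have e4 := ZMod.pow_card_sub_one_eq_one hb
      rw [show p - 1 = #((univ.erase i).erase j) + 1 by omega, pow_succ] at e3 e4
      rw [prod_div_distrib, prod_mul_distrib, prod_mul_distrib, prod_const, prod_const,
        div_eq_one_iff_eq (mul_ne_zero (pow_ne_zero _ hb) (prod_ne_zero_iff.2 fun k hk =>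
          nz j k hj (mem_erase.1 hk).1))]
      apply mul_left_cancel₀ (mul_ne_zero (mul_ne_zero ha hb) (nz i j hi c.symm))
      simp only [R] at e
      rw [← e1, ← e2, sy j i] at e
      linear_combination e + (b * M i j * ∏ x ∈ (univ.erase i).erase j, M i x) * e3
        - (a * M i j * ∏ x ∈ (univ.erase i).erase j, M j x) * e4
  by_cases hz : ∀ i, M i i = 0
  · have hR : ∀ i, R i ≠ 0 := fun i => prod_ne_zero_iff.2 fun k hk => nz i k (hz i) (mem_erase.1 hk).1
    refine core (F := ZMod p) (ι := Fin p) (by simp) (by simpa) (fun k i => R i * M i k)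
      (fun k i c => mul_ne_zero (hR i) (nz i k (hz i) c.symm)) (fun i j c t ht => ?_) c2
    obtain ⟨h1, h2⟩ := key i j (R i) (R j) c (hz i) (hz j) (hR i) (hR j) (mul_comm _ _)
    have h3 : ({k | i ≠ k ∧ j ≠ k ∧ R i * M i k = t * (R j * M j k)} : Finset _) =
        {k ∈ (univ.erase i).erase j | R i * M i k / (R j * M j k) = t} := by
      ext k
      simp only [mem_filter, mem_univ, true_and, mem_erase, and_true]
      by_cases c : k = j
      · simp [c]
      · rw [div_eq_iff (mul_ne_zero (hR j) (nz j k (hz j) c))]; tauto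
    rw [h3]
    split_ifs with c
    · refine card_eq_zero.2 (filter_eq_empty_iff.2 fun k hk e => ?_)
      have := mem_image_of_mem (fun k => R i * M i k / (R j * M j k)) hk
      rw [h2] at this
      simp [e, c] at this
    · obtain ⟨k, hk, e⟩ := mem_image.1 (h2 ▸ (by simp [c, ht] : t ∈ (univ.erase 0).erase (-1)))
      exact card_eq_one.2 ⟨k, eq_singleton_iff_unique_mem.2 ⟨mem_filter.2 ⟨hk, e⟩, fun l hl =>
        h1 (mem_filter.1 hl).1 hk ((mem_filter.1 hl).2.trans e.symm)⟩⟩
  push Not at hz
  obtain ⟨q, hq⟩ := hz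
  have hz : ∀ i ≠ q, M i i = 0 := fun i c => hd i (by
    have := mt (hd q) hq
    have := i.2
    have := q.2
    have := Fin.val_ne_of_ne c
    omega)
  have q0 : ∀ k, M q k ≠ 0 := fun k => by
    by_cases c : k = q
    · rwa [c]
    · exact sy q k ▸ nz k q (hz k c) (Ne.symm c)
  have inj : ∀ i ≠ q, Set.InjOn (fun k => M i k / M q k) (univ.erase i :) := by
    intro i c k _ l _ e
    by_contra c'
    rw [div_eq_div_iff (q0 k) (q0 l)] at e
    exact mi i q k l c c' e
  have im : ∀ i ≠ q, (univ.erase i).image (fun k => M i k / M q k) = univ.erase 0 :=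
    fun i c => eq_of_subset_of_card_le (image_subset_iff.2 fun k hk => by
      simp [q0, nz i k (hz i c) (mem_erase.1 hk).1]) (by
      rw [card_image_of_injOn (inj i c)]; simp [card_erase_of_mem])
  have hR : ∀ i ≠ q, R i * M q i = -∏ k, M q k := fun i c => by
    have := prod_erase (F := ZMod p)
    rw [← im i c, prod_image (inj i c), prod_div_distrib,
      div_eq_iff (prod_ne_zero_iff.2 fun k _ => q0 k)] at this
    rw [← mul_prod_erase _ _ (mem_univ i)]
    simp only [R]
    linear_combination M q i * this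
  haveI := Fin.nontrivial_iff_two_le.2 hp.two_le
  obtain ⟨k, hk⟩ := exists_ne q
  obtain ⟨a, -, ha⟩ := exists_mem_notMem_of_card_lt_card (t := univ)
    (s := ({0, M k q / M q q, -(M k q / M q q)} : Finset (ZMod p)))
    (card_le_three.trans_lt (by simp; omega))
  simp only [mem_insert, mem_singleton, not_or] at ha
  obtain ⟨i, hi, e1⟩ := mem_image.1 (im k hk ▸ (by simp [ha.1] : a ∈ univ.erase 0))
  obtain ⟨j, hj, e2⟩ := mem_image.1 (im k hk ▸ (by simp [ha.1] : -a ∈ univ.erase 0))
  have iq : i ≠ q := fun c => ha.2.1 (by rw [← e1, c])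
  have jq : j ≠ q := fun c => ha.2.2 (by rw [c] at e2; rw [e2, neg_neg])
  have ij : i ≠ j := fun c => c2 (mul_left_cancel₀ ha.1 (by rw [mul_neg, mul_one, ← e2, ← c, e1]))
  have := (key i j (M q i)⁻¹ (M q j)⁻¹ ij (hz i iq) (hz j jq) (inv_ne_zero (q0 i))
    (inv_ne_zero (q0 j)) (by
      have := q0 i
      have := q0 j
      field_simp
      rw [hR i iq, mul_comm, hR j jq])).2
  have h := this ▸ mem_image_of_mem (fun k => (M q i)⁻¹ * M i k / ((M q j)⁻¹ * M j k))
    (a := k) (by simp [(mem_erase.1 hi).1.symm, (mem_erase.1 hj).1.symm])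
  rw [← div_eq_inv_mul, ← div_eq_inv_mul, sy i k, sy j k, e1, e2, div_neg_self ha.1] at h
  simp at h
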